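import Mathlib

set_option autoImplicit false

namespace Pool.Agent.Results.MP_f363fd_co.Bound

open Finset Function

variable {V : Type} [Fintype V] [DecidableEq V] (Γ : SimpleGraph V) [DecidableRel Γ.Adj]

/-- `|∂A|`: the number of edges from `A` to its complement -/
def bd (A : Finset V) : ℕ := #{p : V × V | p.1 ∈ A ∧ p.2 ∉ A ∧ Γ.Adj p.1 p.2}

/-- the `n`-way isoperimetric constant; a partition into `n` non-empty parts is a surjection -/
noncomputable def h (n : ℕ) : ℝ :=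
  ⨅ f : {f : V → Fin n // Surjective f}, ⨆ i, (bd Γ {x | f.1 x = i} : ℝ) / #{x | f.1 x = i}

/-- `Aut(Γ)` has a system of imprimitivity of size `n` -/
def HasBlocks (n : ℕ) : Prop :=
  ∃ f : V → Fin n, Surjective f ∧ ∀ g : Γ ≃g Γ, ∀ i, ∃ j, g '' (f ⁻¹' {i}) = f ⁻¹' {j}

def O (A : Finset V) (x : V) : ℝ := ∑ y, if x ∈ A ∧ y ∉ A ∧ Γ.Adj x y then 1 else 0

lemma bd_eq (A : Finset V) : (bd Γ A : ℝ) = ∑ x, O Γ A x := by
  simp only [bd, O, card_filter, Fintype.sum_prod_type]; push_cast; rfl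

lemma bd_sdiff (A B : Finset V) : (bd Γ (A \ B) : ℝ) ≤ bd Γ A + bd Γ B := by
  rw [bd_eq, bd_eq, bd_eq]
  unfold O
  rw [sum_comm (f := fun x y => if x ∈ B ∧ y ∉ B ∧ Γ.Adj x y then (1 : ℝ) else 0), ← sum_add_distrib]
  refine sum_le_sum fun x _ => ?_
  rw [← sum_add_distrib]
  refine sum_le_sum fun y _ => ?_
  by_cases x ∈ A <;> by_cases y ∈ A <;> by_cases x ∈ B <;> by_cases y ∈ B <;>
    by_cases Γ.Adj x y <;> simp [*, Γ.adj_comm y x]

lemma tri (T S U : Finset V) : (#(T ∩ S) : ℝ) + #(T ∩ U) ≤ #(S ∩ U) + #T := by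
  have h1 := card_union_add_card_inter (T ∩ S) (T ∩ U)
  have h2 : #(T ∩ S ∪ T ∩ U) ≤ #T := card_le_card (by grind)
  have h3 : #(T ∩ S ∩ (T ∩ U)) ≤ #(S ∩ U) := card_le_card (by grind)
  exact_mod_cast (by omega)

section
variable {G : Type} [Group G] [Fintype G] [MulAction G V]

def T (A : Finset V) (g : G) : Finset V := {x | g • x ∈ A}

omit [Fintype G] in
lemma card_T (A : Finset V) (g : G) : #(T A g) = #A :=
  card_equiv (MulAction.toPerm g) (by simp [T])

omit [Fintype G] in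
lemma O_T (hA : ∀ (g : G) x y, Γ.Adj (g • x) (g • y) ↔ Γ.Adj x y) (A : Finset V) (g : G) (x : V) :
    O Γ (T A g) x = O Γ A (g • x) :=
  Fintype.sum_equiv (MulAction.toPerm g) _ _ (by simp [T, hA])

omit [DecidableEq V] in
lemma avg [MulAction.IsPretransitive G V] (F : V → ℝ) (x : V) :
    ∑ g : G, F (g • x) = Fintype.card G / Fintype.card V * ∑ v, F v := by
  have h1 : ∀ y, ∑ g : G, F (g • y) = ∑ g : G, F (g • x) := fun y => by
    obtain ⟨k, rfl⟩ := MulAction.exists_smul_eq G x y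
    exact Fintype.sum_equiv (Equiv.mulRight k) _ _ (by simp [mul_smul])
  have h2 : ∑ y, ∑ g : G, F (g • y) = Fintype.card G * ∑ v, F v := by
    rw [sum_comm, sum_congr rfl fun g _ => Fintype.sum_equiv (MulAction.toPerm g) _ F (by simp)]
    simp
  simp only [h1, sum_const, card_univ, nsmul_eq_mul] at h2
  have : (0 : ℝ) < Fintype.card V := by exact_mod_cast Fintype.card_pos_iff.mpr ⟨x⟩
  field_simp
  linarith

/-- number of `g` with `g • x ∈ A` whose translate of `A` is not mostly inside `S` -/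
noncomputable def β (G : Type) [Group G] [Fintype G] [MulAction G V] (A S : Finset V) (x : V) : ℝ :=
  ∑ g : G, if g • x ∈ A ∧ 8 * (#(T A g ∩ S) : ℝ) ≤ 7 * #A then 1 else 0

lemma mass [MulAction.IsPretransitive G V] (hA : ∀ (g : G) x y, Γ.Adj (g • x) (g • y) ↔ Γ.Adj x y)
    (A S : Finset V) (t : ℝ) (ht : 0 ≤ t) (h1 : (bd Γ A : ℝ) ≤ t * #A) (h2 : (bd Γ S : ℝ) ≤ t * #S)
    (hs : ∀ B ⊆ A, B.Nonempty → 8 * (#B : ℝ) ≤ 7 * #A → 33 * t * #B < bd Γ B) (m : ℝ)
    (hm : m = Fintype.card G / Fintype.card V * #A) (m0 : 0 < m) :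
    33 * (#{x ∈ S | m ≤ 4 * β G A S x} : ℝ) ≤ 8 * #S := by
  have c0 : (0 : ℝ) ≤ Fintype.card G / Fintype.card V := by positivity
  have e1 : ∑ g : G, (bd Γ (T A g ∩ S) : ℝ) ≤ 2 * t * (m * #S) := by
    calc _ ≤ ∑ g : G, ∑ x, ((if x ∈ S then O Γ A (g • x) else 0) +
          (if g • x ∈ A then 1 else 0) * O Γ S x) := by
          refine sum_le_sum fun g _ => ?_
          rw [bd_eq]
          refine sum_le_sum fun x _ => ?_
          rw [← O_T Γ hA]
          by_cases h3 : x ∈ S <;> by_cases h4 : g • x ∈ A <;> simp only [O, h3, h4, T, mem_inter,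
            mem_filter, mem_univ, true_and, false_and, and_false, if_true, if_false, one_mul, zero_mul,
            sum_const_zero, add_zero, le_refl, ← sum_add_distrib]
          refine sum_le_sum fun y _ => ?_
          by_cases g • y ∈ A <;> by_cases y ∈ S <;> by_cases Γ.Adj x y <;> simp [*]
      _ = #S * (Fintype.card G / Fintype.card V * bd Γ A) + m * bd Γ S := by
          rw [sum_comm]
          simp only [sum_add_distrib, ← sum_mul, sum_ite_irrel, avg (O Γ A),
            avg (fun v => if v ∈ A then (1 : ℝ) else 0), ← bd_eq]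
          simp [← mul_sum, ← bd_eq, hm]
      _ ≤ #S * (Fintype.card G / Fintype.card V * (t * #A)) + m * (t * #S) := by gcongr
      _ = _ := by rw [hm]; ring
  have e2 : ∑ x ∈ S, β G A S x = ∑ g : G with 8 * (#(T A g ∩ S) : ℝ) ≤ 7 * #A, (#(T A g ∩ S) : ℝ) := by
    rw [sum_filter]
    unfold β
    rw [sum_comm]
    refine sum_congr rfl fun g _ => ?_
    by_cases h3 : 8 * (#(T A g ∩ S) : ℝ) ≤ 7 * #A <;> simp only [h3, and_true, and_false, if_true,
      if_false, sum_const_zero, sum_boole]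
    congr 2; ext; simp [T, and_comm]
  have e3 : ∀ g : G, 8 * (#(T A g ∩ S) : ℝ) ≤ 7 * #A → (T A g ∩ S).Nonempty →
      33 * t * #(T A g ∩ S) < bd Γ (T A g ∩ S) := fun g h3 h4 => by
    have := hs (T (T A g ∩ S) g⁻¹) (fun x => by simp [T]; tauto)
      (by rwa [← card_pos, card_T, card_pos]) (by rwa [card_T])
    rwa [card_T, bd_eq, sum_congr rfl fun x _ => O_T Γ hA _ _ x,
      Fintype.sum_equiv (MulAction.toPerm g⁻¹) _ (O Γ (T A g ∩ S)) (by simp), ← bd_eq] at this
  have e4 : 33 * ∑ x ∈ S, β G A S x ≤ 2 * (m * #S) := by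
    by_contra h3
    have h4 : 33 * t * ∑ x ∈ S, β G A S x < ∑ g : G with 8 * (#(T A g ∩ S) : ℝ) ≤ 7 * #A,
        (bd Γ (T A g ∩ S) : ℝ) := by
      rw [e2, mul_sum]
      refine sum_lt_sum (fun g hg => ?_) ?_
      · rcases (T A g ∩ S).eq_empty_or_nonempty with h | h
        · simp [h]
        · exact (e3 g (mem_filter.mp hg).2 h).le
      · obtain ⟨g, hg, h5⟩ := exists_ne_zero_of_sum_ne_zero (e2 ▸ (show ∑ x ∈ S, β G A S x ≠ 0 by
          intro h; rw [h] at h3; exact h3 (by simp; positivity)))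
        exact ⟨g, hg, e3 g (mem_filter.mp hg).2 (card_ne_zero.mp (by exact_mod_cast h5))⟩
    have h5 := sum_le_sum_of_subset_of_nonneg (f := fun g : G => (bd Γ (T A g ∩ S) : ℝ))
      (filter_subset (fun g => 8 * (#(T A g ∩ S) : ℝ) ≤ 7 * #A) univ) fun _ _ _ => by positivity
    nlinarith [mul_le_mul_of_nonneg_left (not_le.mp h3).le ht]
  have e5 : #{x ∈ S | m ≤ 4 * β G A S x} • m ≤ 4 * ∑ x ∈ S, β G A S x := by
    rw [mul_sum]
    exact (card_nsmul_le_sum _ _ _ fun x hx => (mem_filter.mp hx).2).trans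
      (sum_le_sum_of_subset_of_nonneg (filter_subset _ _) fun _ _ _ => by unfold β; positivity)
  rw [nsmul_eq_mul] at e5
  nlinarith

lemma common [MulAction.IsPretransitive G V] (A S U : Finset V) (m : ℝ)
    (hm : m = Fintype.card G / Fintype.card V * #A) (x y : V) (h1 : 4 * β G A S x < m)
    (h2 : 4 * β G A U y < m) (h3 : 4 * (#(S ∩ U) : ℝ) ≤ 3 * #A) :
    m ≤ 2 * ∑ g : G, if g • x ∈ A ∧ g • y ∉ A then 1 else 0 := by
  have : m ≤ (∑ g : G, if g • x ∈ A ∧ g • y ∉ A then 1 else 0) + β G A S x + β G A U y := by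
    have e := avg (G := G) (fun v => if v ∈ A then (1 : ℝ) else 0) x
    simp only [sum_boole, filter_mem_eq_inter, univ_inter, ← hm] at e
    rw [← e, ← sum_boole, β, β, ← sum_add_distrib, ← sum_add_distrib]
    refine sum_le_sum fun g _ => ?_
    have := tri (T A g) S U
    rw [card_T] at this
    by_cases g • x ∈ A <;> by_cases g • y ∈ A <;> simp only [*, true_and, false_and, not_true, not_false_iff,
      if_true, if_false, and_true] <;> (try split_ifs) <;> linarith
  linarith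

lemma core [MulAction.IsPretransitive G V] (hA : ∀ (g : G) x y, Γ.Adj (g • x) (g • y) ↔ Γ.Adj x y)
    {n : ℕ} (f : V → Fin n) (hf : Surjective f) (i : Fin n) (t : ℝ) (ht : 0 ≤ t)
    (h1 : ∀ j, (bd Γ {x | f x = j} : ℝ) ≤ t * #{x | f x = j}) (A : Finset V) (hi : A = univ.filter (f · = i))
    (hs : ∀ B ⊆ A, B.Nonempty → 8 * (#B : ℝ) ≤ 7 * #A → 33 * t * #B < bd Γ B) :
    ∃ r : Setoid V, (∀ (g : G) x y, r x y → r (g • x) (g • y)) ∧ n ≤ Nat.card (Quotient r) ∧
      ∀ W : Finset V, (∀ x ∈ W, ∀ y, r x y → y ∈ W) → (bd Γ W : ℝ) ≤ 2 * t * #W := by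
  have hne : ∀ j, (0 : ℝ) < #{x | f x = j} := fun j => by
    obtain ⟨x, hx⟩ := hf j
    exact_mod_cast card_pos.mpr ⟨x, by simp [hx]⟩
  have a0 : (0 : ℝ) < #A := hi ▸ hne i
  have hAt : (bd Γ A : ℝ) ≤ t * #A := hi ▸ h1 i
  obtain ⟨m, hm⟩ : ∃ m : ℝ, m = Fintype.card G / Fintype.card V * #A := ⟨_, rfl⟩
  have m0 : 0 < m := by
    have : 0 < Fintype.card V := Fintype.card_pos_iff.mpr ⟨(hf i).choose⟩
    have : 0 < Fintype.card G := Fintype.card_pos
    rw [hm]; positivity
  have typ : ∀ j, ∃ x, f x = j ∧ 4 * β G A {x | f x = j} x < m := fun j => by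
    by_contra! h
    have := mass Γ hA A _ t ht hAt (h1 j) hs m hm m0
    rw [filter_true_of_mem fun x hx => h x (mem_filter.mp hx).2] at this
    linarith [hne j]
  have same : ∀ S U x, 4 * β G A S x < m → 4 * β G A U x < m → 3 * (#A : ℝ) < 4 * #(S ∩ U) :=
    fun S U x h2 h3 => by
    by_contra h
    have := common A S U m hm x x h2 h3 (not_lt.mp h)
    simp only [and_not_self, if_false, sum_const_zero] at this
    linarith
  have N : ∀ g k s : G, #(T A (g * s) ∩ T A (k * s)) = #(T A g ∩ T A k) := fun g k s =>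
    card_equiv (MulAction.toPerm s) (by simp [T, mul_smul])
  have B : ∀ (k s : G) x, β G A (T A (k * s)) x = β G A (T A k) (s • x) := fun k s x =>
    (Fintype.sum_equiv (Equiv.mulRight s) _ _ (by simp [N, mul_smul])).symm
  have T1 : T A (1 : G) = A := by simp [T]
  have rep : ∀ x, ∃ k : G, 4 * β G A (T A k) x < m := fun x => by
    obtain ⟨y, -, hy⟩ := typ i
    obtain ⟨k, rfl⟩ := MulAction.exists_smul_eq G x y
    exact ⟨1 * k, by rwa [B, T1, ← hi] at *⟩
  have dich : ∀ k l : G, (#A : ℝ) ≤ 2 * #(T A k ∩ T A l) → 3 * (#A : ℝ) < 4 * #(T A k ∩ T A l) := by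
    intro k l h
    have a : ∀ k : G, 33 * (#{x ∈ T A k | m ≤ 4 * β G A (T A k) x} : ℝ) ≤ 8 * #A := fun k => by
      refine le_trans (le_of_eq ?_) (mass Γ hA A A t ht hAt hAt hs m hm m0)
      congr 2
      refine card_equiv (MulAction.toPerm k) fun x => ?_
      have := B 1 k x
      rw [one_mul, T1] at this
      rw [mem_filter, mem_filter, this]; simp [T]
    by_contra h2
    have : T A k ∩ T A l ⊆ {x ∈ T A k | m ≤ 4 * β G A (T A k) x} ∪
        {x ∈ T A l | m ≤ 4 * β G A (T A l) x} := fun x hx => by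
      simp only [mem_union, mem_filter, mem_inter] at hx ⊢
      by_contra! h3
      exact h2 (same _ _ x (h3.1 hx.1) (h3.2 hx.2))
    have := (Nat.cast_le (α := ℝ)).mpr ((card_le_card this).trans (card_union_le _ _))
    push_cast at this
    linarith [a k, a l]
  have tr : ∀ k l p : G, (#A : ℝ) ≤ 2 * #(T A k ∩ T A l) → (#A : ℝ) ≤ 2 * #(T A l ∩ T A p) →
      (#A : ℝ) ≤ 2 * #(T A k ∩ T A p) := fun k l p h2 h3 => by
    have := tri (T A l) (T A k) (T A p)
    rw [card_T, inter_comm (T A l)] at this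
    linarith [dich _ _ h2, dich _ _ h3]
  refine ⟨⟨fun x y => ∃ k l : G, 4 * β G A (T A k) x < m ∧ 4 * β G A (T A l) y < m ∧
    (#A : ℝ) ≤ 2 * #(T A k ∩ T A l), fun x => ?_, ?_, ?_⟩, ?_, ?_, fun W hW => ?_⟩
  · obtain ⟨k, hk⟩ := rep x
    exact ⟨k, k, hk, hk, by linarith [same _ _ x hk hk]⟩
  · rintro x y ⟨k, l, h2, h3, h4⟩
    exact ⟨l, k, h3, h2, by rwa [inter_comm]⟩
  · rintro x y z ⟨k, l, h2, h3, h4⟩ ⟨l', p, h5, h6, h7⟩
    exact ⟨k, p, h2, h6, tr _ _ _ h4 (tr _ _ _ (by linarith [same _ _ y h3 h5]) h7)⟩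
  · rintro g x y ⟨k, l, h2, h3, h4⟩
    exact ⟨k * g⁻¹, l * g⁻¹, by simpa [B], by simpa [B], by rwa [N]⟩
  · choose x hx hx' using typ
    rw [← Nat.card_eq_fintype_card.trans (Fintype.card_fin n)]
    refine Nat.card_le_card_of_injective (fun j => Quotient.mk _ (x j)) fun j j' h => ?_
    obtain ⟨k, l, h2, h3, h4⟩ := Quotient.exact h
    by_contra hj
    have a1 := same _ _ _ h2 (hx' j)
    have a2 := same _ _ _ h3 (hx' j')
    have a3 := tri (T A l) (T A k) {x | f x = j'}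
    have a4 := tri (T A k) {x | f x = j} {x | f x = j'}
    rw [show (univ.filter (f · = j)) ∩ (univ.filter (f · = j')) = ∅ by ext; simp; grind] at a4
    rw [inter_comm (T A l)] at a3
    simp only [card_T, card_empty, Nat.cast_zero] at a3 a4
    linarith [dich _ _ h4]
  · have : m * bd Γ W ≤ 2 * ∑ x ∈ W, ∑ g : G, O Γ A (g • x) := by
      rw [bd_eq, mul_sum, mul_sum, ← sum_subset (subset_univ W) fun x _ hx => by simp [O, hx]]
      refine sum_le_sum fun x hx => ?_
      simp only [← O_T Γ hA]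
      unfold O
      rw [sum_comm, mul_sum, mul_sum]
      refine sum_le_sum fun y _ => ?_
      split_ifs with h
      · obtain ⟨k, hk⟩ := rep x
        obtain ⟨l, hl⟩ := rep y
        have := common A _ _ m hm x y hk hl (by
          by_contra h2; exact h.2.1 (hW x hx y ⟨k, l, hk, hl, by linarith⟩))
        simpa [T, h.2.2] using this
      · rw [mul_zero]; positivity
    simp only [avg (O Γ A), ← bd_eq, sum_const, nsmul_eq_mul] at this
    refine le_of_mul_le_mul_left (this.trans ?_) m0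
    calc _ ≤ 2 * (#W * (Fintype.card G / Fintype.card V * (t * #A))) := by gcongr
      _ = _ := by rw [hm]; ring

end

lemma sur (W : Type) [Finite W] (k : ℕ) (hk : k + 1 ≤ Nat.card W) :
    ∃ s : W → Fin (k + 1), Surjective s := by
  have := Fintype.ofFinite W
  obtain ⟨e⟩ := Embedding.nonempty_of_card_le (α := Fin (k + 1)) (β := W) (by simpa using hk)
  exact ⟨_, invFun_surjective e.injective⟩

omit [DecidableEq V] in
lemma hne {k : ℕ} (f : V → Fin k) (hf : Surjective f) (j : Fin k) : (0 : ℝ) < #{x | f x = j} := by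
  obtain ⟨x, hx⟩ := hf j
  exact_mod_cast card_pos.mpr ⟨x, by simp [hx]⟩

lemma split {n : ℕ} (f : V → Fin (n + 1)) (hf : Surjective f) (t : ℝ) (ht : 0 ≤ t)
    (h1 : ∀ j, (bd Γ {x | f x = j} : ℝ) ≤ t * #{x | f x = j}) (B : Finset V)
    (hB : B ⊆ univ.filter (f · = 0)) (h2 : B.Nonempty) (h3 : 8 * (#B : ℝ) ≤ 7 * #{x | f x = 0})
    (h4 : bd Γ B ≤ 33 * t * #B) : ∃ f' : V → Fin (n + 1 + 1), Surjective f' ∧
      ∀ j, (bd Γ {x | f' x = j} : ℝ) ≤ 272 * t * #{x | f' x = j} := by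
  have a0 := hne f hf 0
  have hd : (#(univ.filter (f · = 0) \ B) : ℝ) + #B = #{x | f x = 0} := by
    exact_mod_cast card_sdiff_add_card_eq_card hB
  obtain ⟨f', hf'⟩ : ∃ f' : V → Fin (n + 1 + 1), ∀ x,
    f' x = if x ∈ B then Fin.last _ else (f x).castSucc := ⟨_, fun _ => rfl⟩
  have fib : ∀ j : Fin (n + 1), univ.filter (f' · = j.castSucc) = univ.filter (f · = j) \ B :=
    fun j => by ext x; by_cases h : x ∈ B <;> simp [hf', h, (Fin.castSucc_lt_last _).ne']
  have oth : ∀ j : Fin (n + 1), j ≠ 0 → univ.filter (f · = j) \ B = univ.filter (f · = j) :=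
    fun j hj => sdiff_eq_self_of_disjoint (disjoint_left.mpr fun x h5 h6 =>
      hj ((mem_filter.mp h5).2.symm.trans (mem_filter.mp (hB h6)).2))
  refine ⟨f', fun j => ?_, fun j => ?_⟩
  · refine Fin.lastCases ⟨h2.choose, by rw [hf', if_pos h2.choose_spec]⟩ (fun j => ?_) j
    have : (0 : ℝ) < #(univ.filter (f · = j) \ B) := by
      by_cases hj : j = 0
      · subst hj; linarith
      · rw [oth j hj]; exact hne f hf j
    rw [← fib] at this
    obtain ⟨x, hx⟩ := card_pos.mp (Nat.cast_pos.mp this)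
    exact ⟨x, (mem_filter.mp hx).2⟩
  · have b0 := mul_nonneg ht (Nat.cast_nonneg (α := ℝ) #B)
    refine Fin.lastCases ?_ (fun j => ?_) j
    · rw [show univ.filter (f' · = Fin.last _) = B by ext x; by_cases h : x ∈ B <;> simp [hf', h]]
      linarith
    · rw [fib]
      by_cases hj : j = 0
      · subst hj
        have := congrArg (t * ·) hd
        linarith [bd_sdiff Γ (univ.filter (f · = 0)) B, h1 0, mul_le_mul_of_nonneg_left h3 ht]
      · rw [oth j hj]
        linarith [h1 j, mul_nonneg ht (hne f hf j).le]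

theorem result : ∃ C : ℝ, 0 < C ∧ ∀ (V : Type) [Fintype V] [DecidableEq V] (Γ : SimpleGraph V)
    [DecidableRel Γ.Adj], (∀ x y : V, ∃ g : Γ ≃g Γ, g x = y) → ∀ n, 2 ≤ n → n < Fintype.card V →
    ¬HasBlocks Γ n → h Γ (n + 1) ≤ C * h Γ n := by
  refine ⟨272, by norm_num, fun V _ _ Γ _ htr n hn hV hb => ?_⟩
  obtain ⟨n, rfl⟩ : ∃ k, n = k + 1 := ⟨n - 1, by omega⟩
  have : Nonempty {f : V → Fin (n + 1) // Surjective f} :=
    nonempty_subtype.mpr (sur V n (by simpa using hV.le))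
  obtain ⟨⟨f, hf⟩, e⟩ := exists_eq_ciInf_of_finite (f := fun f : {f : V → Fin (n + 1) // Surjective f} =>
    ⨆ i, (bd Γ {x | f.1 x = i} : ℝ) / #{x | f.1 x = i})
  have h0 : ∀ j, (bd Γ {x | f x = j} : ℝ) / #{x | f x = j} ≤ h Γ (n + 1) := fun j =>
    (le_ciSup (f := fun i => (bd Γ {x | f x = i} : ℝ) / #{x | f x = i}) (Finite.bddAbove_range _) j).trans_eq e
  have ht : 0 ≤ h Γ (n + 1) := le_trans (by positivity) (h0 0)
  have h1 := fun j => (div_le_iff₀ (hne f hf j)).mp (h0 j)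
  generalize h Γ (n + 1) = t at *
  by_contra hc
  have no : ∀ f' : V → Fin (n + 1 + 1), Surjective f' →
      ¬∀ j, (bd Γ {x | f' x = j} : ℝ) ≤ 272 * t * #{x | f' x = j} := fun f' hf' h2 => by
    refine hc ?_
    unfold h
    exact ciInf_le_of_le (Finite.bddBelow_range _) ⟨f', hf'⟩
      (ciSup_le fun j => (div_le_iff₀ (hne f' hf' j)).mpr (h2 j))
  have : Finite (Γ ≃g Γ) := Finite.of_injective _ RelIso.toEquiv_injective
  have := Fintype.ofFinite (Γ ≃g Γ)
  have : MulAction.IsPretransitive (Γ ≃g Γ) V := ⟨htr⟩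
  obtain ⟨r, r1, r2, r3⟩ := core Γ (G := Γ ≃g Γ) (fun g x y => g.map_rel_iff) f hf 0 t ht h1 _ rfl
    fun B hB h2 h3 => by
    by_contra! h4
    obtain ⟨f', h5, h6⟩ := split Γ f hf t ht h1 B hB h2 h3 h4
    exact no f' h5 h6
  rcases r2.eq_or_lt with h2 | h2
  · let e := Finite.equivFinOfCardEq h2.symm
    refine hb ⟨fun x => e (Quotient.mk r x), e.surjective.comp Quotient.mk_surjective, fun g i => ?_⟩
    obtain ⟨x, rfl⟩ := e.surjective.comp Quotient.mk_surjective i
    refine ⟨e (Quotient.mk r (g x)), Set.ext fun y => ⟨?_, fun hy => ⟨g⁻¹ • y, ?_, by simp⟩⟩⟩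
    · rintro ⟨y, hy, rfl⟩
      exact congrArg e (Quotient.sound (r1 g _ _ (Quotient.exact (e.injective hy))))
    · have := r1 g⁻¹ _ _ (Quotient.exact (e.injective hy))
      rw [← RelIso.smul_def g x, inv_smul_smul] at this
      exact congrArg e (Quotient.sound this)
  · obtain ⟨s, hs⟩ := sur _ _ h2
    refine no (fun x => s (Quotient.mk r x)) (hs.comp Quotient.mk_surjective) fun j => ?_
    refine (r3 _ fun x hx y hy => by simpa [← Quotient.sound hy] using hx).trans ?_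
    gcongr
    norm_num

end Pool.Agent.Results.MP_f363fd_co.Bound
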